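import Pool.Agent.H85.ERG.Targets

/-!
# The volume of the sublevel sets
-/

namespace Pool.Agent.H27.ERG

open MeasureTheory Set Metric Filter Topology Pool.Agent.H85.ERG Pool.Agent.H93.EN
open Pool.Agent.H93.BL hiding T_B1 T_B2 T_B3 T_SB T_SC T_M3

/-- finite unions of the entrance sets -/
def Un {ι : Type} (P : Polygon ι) (κ a h R : ℝ) : ℕ → Set (ℂ × ℂ)
  | 0 => Fn P κ a h R 0 ∪ Nu P κ a h R 0
  | n + 1 => Un P κ a h R n ∪ (Fn P κ a h R (n + 1) ∪ Nu P κ a h R (n + 1))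

theorem mem_Un {ι : Type} (P : Polygon ι) (κ a h R : ℝ) (z : ℂ × ℂ) (N n : ℕ) (hn : n ≤ N)
    (hz : z ∈ Fn P κ a h R n ∪ Nu P κ a h R n) : z ∈ Un P κ a h R N := by
  induction N with
  | zero =>
    obtain rfl := Nat.le_zero.1 hn
    exact hz
  | succ N ih =>
    rcases hn.lt_or_eq with h1 | h1
    · exact Or.inl (ih (Nat.lt_succ_iff.1 h1))
    · subst h1
      exact Or.inr hz

theorem m3 (h1 : T_DI) (h2 : T_JO) (h3 : T_ST) (h4 : T_FV) (h5 : T_NL) (h6 : T_PV) : T_M3 := by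
  intro ι _ P κ hLS
  obtain ⟨C, hC, hF⟩ := h4 ι P κ hLS
  obtain ⟨hpv0, hpvm, hpvs, hpvr⟩ := h6 ι P
  have hκ : 0 < κ := hLS.1
  have hκ4 : κ ≤ 1 / 4 := hLS.2.1
  refine ⟨20 * C, by positivity, ?_⟩
  intro a L lam ha haL hlam
  have hL : 0 < L := lt_of_lt_of_le ha haL
  obtain ⟨h, hh⟩ : ∃ h : ℝ, h = κ * a / 128 := ⟨_, rfl⟩
  have hκa : κ * a = 128 * h := by rw [hh]; ring
  have hh0 : 0 < h := by rw [hh]; positivity
  obtain ⟨R, hR⟩ : ∃ R : ℝ, R = 2 * (lam * a) := ⟨_, rfl⟩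
  have hR0 : 0 < R := by rw [hR]; positivity
  have haR : a < 2 * R := by rw [hR]; nlinarith
  have h64 : 64 * h < κ * a := by rw [hκa]; linarith
  obtain ⟨N, hN1, hN2⟩ : ∃ N : ℕ, lam * L + κ * a ≤ N * h ∧ N * h ≤ lam * L + κ * a + h := by
    refine ⟨⌈(lam * L + κ * a) / h⌉₊, ?_, ?_⟩
    · have := Nat.le_ceil ((lam * L + κ * a) / h)
      rwa [div_le_iff₀ hh0] at this
    · have := (Nat.ceil_lt_add_one (show 0 ≤ (lam * L + κ * a) / h by positivity)).le
      calc (⌈(lam * L + κ * a) / h⌉₊ : ℝ) * h ≤ ((lam * L + κ * a) / h + 1) * h :=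
            mul_le_mul_of_nonneg_right this hh0.le
        _ = lam * L + κ * a + h := by field_simp
  -- measurability and volume of the unions
  have hFm : ∀ n, MeasurableSet (Fn P κ a h R n) := by
    intro n
    cases n with
    | zero =>
      have := ((hF a h R ha hh0 h64 haR).2 0).1
      exact this
    | succ n => exact ((hF a h R ha hh0 h64 haR).2 (n + 1)).1
  have hNm : ∀ n, MeasurableSet (Nu P κ a h R n) := fun n =>
    (h5 ι P κ hLS a h R ha hh0.le h64 haR n).1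
  have hN0 : ∀ n, pv P (Nu P κ a h R n) = 0 := fun n =>
    (h5 ι P κ hLS a h R ha hh0.le h64 haR n).2
  have hUm : ∀ n, MeasurableSet (Un P κ a h R n) := by
    intro n
    induction n with
    | zero => exact (hFm 0).union (hNm 0)
    | succ n ih => exact ih.union ((hFm _).union (hNm _))
  have hFN : ∀ n, pv P (Fn P κ a h R n ∪ Nu P κ a h R n) ≤ pv P (Fn P κ a h R n) := by
    intro n
    refine (hpvs _ _ (hFm n)).trans ?_
    rw [hN0 n, add_zero]
  have hUv : ∀ n : ℕ, pv P (Un P κ a h R n) ≤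
      ENNReal.ofReal (C * R ^ 2 + n * (C * R * h)) := by
    intro n
    induction n with
    | zero =>
      refine (hFN 0).trans ?_
      simpa using (hF a h R ha hh0 h64 haR).1
    | succ n ih =>
      refine (hpvs _ _ (hUm n)).trans ?_
      have e2 := (hFN (n + 1)).trans ((hF a h R ha hh0 h64 haR).2 n).2
      refine (add_le_add ih e2).trans ?_
      rw [← ENNReal.ofReal_add (by positivity) (by positivity)]
      refine ENNReal.ofReal_le_ofReal (le_of_eq ?_)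
      push_cast
      ring
  -- inclusion
  have hsub : ∀ x w, x ∈ P.Ω → ‖w‖ = 1 →
      (x, w) ∈ {z : ℂ × ℂ | z.1 ∈ P.Ω ∧ ‖z.2‖ = 1 ∧ mm P κ a L z.1 z.2 < lam} →
      (x, w) ∈ Un P κ a h R N ∪ {z : ℂ × ℂ | (z.1, -z.2) ∈ Un P κ a h R N} := by
    rintro x w hx hw ⟨-, -, hlt⟩
    rcases h1 ι P κ hLS a h R ha hh0 h64 haR N x w hx hw with ⟨n, hn, hz⟩ | ⟨y, v, hy0, hv0, hy, hyM⟩
    · exact Or.inl (mem_Un P κ a h R _ N n hn hz)
    rcases h1 ι P κ hLS a h R ha hh0 h64 haR N x (-w) hx (by rw [norm_neg]; exact hw) with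
      ⟨n, hn, hz⟩ | ⟨y', v', hy0', hv0', hy', hyM'⟩
    · exact Or.inr (mem_Un P κ a h R _ N n hn hz)
    exfalso
    obtain ⟨X, W, hX0, hW0, hX, hXM⟩ := h2 ι P κ hLS a h R ha hh0 h64 haR N y v y' v'
      (by rw [hy0, hy0']) (by rw [hv0, hv0']) hy hyM hy' hyM'
    have hfin := h3 ι P κ hLS a L lam N X W ha hL hlam (by rw [← hh]; exact hN1) (by
      intro i hi1 hi2
      obtain ⟨c1, c2, c3⟩ := hX i hi1 hi2
      exact ⟨c1, c2, by rw [← hR]; exact c3⟩) (by rw [← hh]; exact hXM)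
    rw [hX0, hW0, hy0, hv0] at hfin
    exact absurd hlt (not_lt.2 hfin)
  refine (hpvm _ _ hsub).trans ((hpvs _ _ (hUm N)).trans ?_)
  rw [(hpvr _ (hUm N)).2]
  refine (add_le_add (hUv N) (hUv N)).trans ?_
  rw [← ENNReal.ofReal_add (by positivity) (by positivity)]
  refine ENNReal.ofReal_le_ofReal ?_
  have hC1 : (N : ℝ) * (C * R * h) ≤ C * R * (lam * L + κ * a + h) := by
    calc (N : ℝ) * (C * R * h) = C * R * (N * h) := by ring
      _ ≤ C * R * (lam * L + κ * a + h) := mul_le_mul_of_nonneg_left hN2 (by positivity)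
  have hκh : κ * a + h ≤ lam * L := by
    have e1 : κ * a ≤ 1 / 4 * a := mul_le_mul_of_nonneg_right hκ4 ha.le
    have e2 : h ≤ 1 / 128 * a := by rw [hh]; linarith
    have e3 : L ≤ lam * L := by nlinarith
    linarith
  have hC2 : C * R * (lam * L + κ * a + h) ≤ C * R * (2 * (lam * L)) :=
    mul_le_mul_of_nonneg_left (by linarith) (by positivity)
  have hC3 : C * R ^ 2 ≤ 4 * (C * lam ^ 2 * a * L) := by
    rw [hR]
    have : C * (2 * (lam * a)) ^ 2 = 4 * (C * lam ^ 2 * a * a) := by ring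
    rw [this]
    exact mul_le_mul_of_nonneg_left (mul_le_mul_of_nonneg_left haL (by positivity)) (by norm_num)
  have hC4 : C * R * (2 * (lam * L)) = 4 * (C * lam ^ 2 * a * L) := by
    rw [hR]
    ring
  have hC5 : 0 ≤ C * lam ^ 2 * a * L := by positivity
  linarith

end Pool.Agent.H27.ERG
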