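import Pool.Agent.H85.ERG.Targets

/-!
# Along a mesh orbit staying away from the vertices the cost is large
-/

namespace Pool.Agent.H27.ERG

open MeasureTheory Set Metric Filter Topology Pool.Agent.H85.ERG Pool.Agent.H93.EN
open Pool.Agent.H93.BL hiding T_B1 T_B2 T_B3 T_SB T_SC

theorem st (h1 : T_ST1) (h2 : T_ST2) (h3 : T_FO) (h4 : T_MM0) : T_ST := by
  intro ι P κ hLS a L lam N X W ha hL hlam hN hX hMv
  have hκ : 0 < κ := hLS.1
  have hκ4 : κ ≤ 1 / 4 := hLS.2.1
  obtain ⟨h, hh⟩ : ∃ h : ℝ, h = κ * a / 128 := ⟨_, rfl⟩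
  have hκa : κ * a = 128 * h := by rw [hh]; ring
  have hh0 : 0 < h := by rw [hh]; positivity
  obtain ⟨r, hr⟩ : ∃ r : ℝ, r = lam * a := ⟨_, rfl⟩
  have har : a ≤ r := by rw [hr]; nlinarith
  have hr0 : 0 < r := lt_of_lt_of_le ha har
  rw [← hh] at hN hMv
  rw [hκa] at hN
  have hκr : κ * r ≤ r / 4 := by nlinarith
  have hhr : h ≤ κ * r / 128 := by
    rw [hh]
    have : κ * a ≤ κ * r := mul_le_mul_of_nonneg_left har hκ.le
    linarith
  have hκr0 : 0 < κ * r := by positivity
  -- smallness of e
  have hsm : ∀ (u : ℝ) (e : ℂ), 0 ≤ u → u / L + 64 / κ * ‖e‖ / a < lam → ‖e‖ < κ * r / 64 := by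
    intro u e hu hB
    have h5 : 64 / κ * ‖e‖ / a < lam := by
      have : 0 ≤ u / L := by positivity
      linarith
    rw [div_lt_iff₀ ha, ← hr, div_mul_eq_mul_div, div_lt_iff₀ hκ] at h5
    linarith
  have claim : ∀ (c : ℝ) (x' w' : ℂ), Ch P κ a L c x' w' → ∀ (i : ℤ), -(N : ℤ) ≤ i → i ≤ N →
      ∀ (α : ℝ) (e : ℂ), |α| ≤ h → InS P κ (X i) (W i) α e x' w' →
      |(i : ℝ) * h + α| / L + 64 / κ * ‖e‖ / a < lam →
      lam - (|(i : ℝ) * h + α| / L + 64 / κ * ‖e‖ / a) ≤ c := by
    intro c x' w' hch
    induction hch with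
    | stop x' w' hx' =>
      intro i hi1 hi2 α e hα hI hB
      have he := hsm _ e (abs_nonneg _) hB
      obtain ⟨τ, hτ, hx'e, -⟩ := hI
      obtain ⟨hXi, hWi, hri⟩ := hX i hi1 hi2
      rw [← hr] at hri
      obtain ⟨y, hy⟩ : ∃ y, y = X i + (α : ℂ) * W i + e := ⟨_, rfl⟩
      have hd : dist y (X i) ≤ |α| + ‖e‖ := by
        rw [hy, dist_eq_norm]
        have e1 : X i + (α : ℂ) * W i + e - X i = (α : ℂ) * W i + e := by ring
        rw [e1]
        refine (norm_add_le _ _).trans ?_
        rw [norm_mul, hWi, Complex.norm_real, Real.norm_eq_abs, mul_one]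
      have hy_mem : y ∈ ball (X i) (κ * rh P (X i)) := by
        rw [mem_ball]
        have h5 : κ * (2 * r) ≤ κ * rh P (X i) := mul_le_mul_of_nonneg_left hri hκ.le
        linarith
      have h6 := (((h3 ι P).2.2 (X i) _ τ hτ).1 y hy_mem).2.1
      rw [hy, ← hx'e, ← hy] at h6
      have h7 : r ≤ rh P x' := by linarith
      have h8 : lam ≤ rh P x' / a := by
        rw [le_div_iff₀ ha, ← hr]
        exact h7
      have h9 : 0 ≤ |(i : ℝ) * h + α| / L + 64 / κ * ‖e‖ / a := by positivity
      linarith
    | step c s ε x' w' x'' w'' hs hε hM hch ih =>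
      intro i hi1 hi2 α e hα hI hB
      have he := hsm _ e (abs_nonneg _) hB
      obtain ⟨hXi, hWi, hri⟩ := hX i hi1 hi2
      rw [← hr] at hri
      have hαh : |α| ≤ κ * a / 128 := by rw [← hh]; exact hα
      obtain ⟨e2, he2, hI2⟩ := h1 ι P κ hLS a r ha har (X i) (W i) α e x' w' s ε x'' w'' hWi hri
        hI hM.1 hαh he.le hs hε hM
      have hx'' : x'' ∈ P.Ω := hM.2.1
      have hc : 0 ≤ c := ((h4 ι P κ a L hκ ha hL x'' w'').1 c hch).1
      have hs' : |s| < h := by
        rw [hκa] at hs
        linarith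
      -- comparison of the two costs
      have hBB : |(i : ℝ) * h + (α + s)| / L + 64 / κ * ‖e2‖ / a ≤
          |(i : ℝ) * h + α| / L + 64 / κ * ‖e‖ / a + (|s| / L + 64 / κ * ‖ε‖ / a) := by
        have e1 : |(i : ℝ) * h + (α + s)| / L ≤ |(i : ℝ) * h + α| / L + |s| / L := by
          rw [← add_div]
          refine div_le_div_of_nonneg_right ?_ hL.le
          rw [← add_assoc]
          exact abs_add_le _ _
        have e2' : 64 / κ * ‖e2‖ / a ≤ 64 / κ * ‖e‖ / a + 64 / κ * ‖ε‖ / a := by
          rw [← add_div, ← mul_add]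
          refine div_le_div_of_nonneg_right ?_ ha.le
          exact mul_le_mul_of_nonneg_left he2 (by positivity)
        linarith
      rcases le_or_gt lam (|(i : ℝ) * h + (α + s)| / L + 64 / κ * ‖e2‖ / a) with hB2 | hB2
      · linarith
      · have he2' := hsm _ e2 (abs_nonneg _) hB2
        have hts : |(i : ℝ) * h + (α + s)| < lam * L := by
          have h5 : |(i : ℝ) * h + (α + s)| / L < lam := by
            have : 0 ≤ 64 / κ * ‖e2‖ / a := by positivity
            linarith
          rwa [div_lt_iff₀ hL] at h5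
        have hα' := abs_le.1 hα
        have hs'' := abs_lt.1 hs'
        have hts' := abs_lt.1 hts
        have hα2 : |α + s| ≤ κ * a / 32 := by
          rw [hκa, abs_le]
          constructor <;> linarith
        rcases le_or_gt |α + s| h with hcase | hcase
        · have := ih i hi1 hi2 (α + s) e2 hcase hI2 hB2
          linarith
        · rcases lt_abs.1 hcase with hpos | hneg
          · -- α + s > h
            have hi3 : (i : ℝ) * h + h < N * h := by nlinarith
            have hi4 : i + 1 ≤ N := by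
              have : ((i : ℝ) + 1) * h < N * h := by linarith
              have h5 := lt_of_mul_lt_mul_right this hh0.le
              have h6 : ((i + 1 : ℤ) : ℝ) < ((N : ℤ) : ℝ) := by push_cast; exact h5
              exact (Int.cast_lt.1 h6).le
            have hi5 : -(N : ℤ) ≤ i + 1 := by linarith
            obtain ⟨hX1, hW1, hr1⟩ := hX (i + 1) hi5 hi4
            rw [← hr] at hr1
            have hMi := hMv i hi1 (by linarith)
            have hst := (h2 ι P κ hLS a r ha har (X i) (W i) (X (i + 1)) (W (i + 1)) hWi hri hr1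
              (by rw [← hh]; exact hMi) (α + s) e2 x'' w'' hx'' hα2 (by linarith)).1 hI2
            obtain ⟨e3, he3, hI3⟩ := hst
            rw [← hh] at hI3
            have hcast : ((i + 1 : ℤ) : ℝ) * h + (α + s - h) = (i : ℝ) * h + (α + s) := by
              push_cast; ring
            have := ih (i + 1) hi5 hi4 (α + s - h) e3 (by
              rw [abs_le]
              constructor <;> linarith) hI3 (by
              rw [hcast, he3]
              exact hB2)
            rw [hcast, he3] at this
            linarith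
          · -- α + s < -h
            have hi3 : -((N : ℝ) * h) < (i : ℝ) * h - h := by nlinarith
            have hi5 : -(N : ℤ) ≤ i - 1 := by
              have : (-(N : ℝ)) * h < ((i : ℝ) - 1) * h := by linarith
              have h5 := lt_of_mul_lt_mul_right this hh0.le
              have h6 : ((-(N : ℤ) : ℤ) : ℝ) < ((i - 1 : ℤ) : ℝ) := by push_cast; exact h5
              exact (Int.cast_lt.1 h6).le
            have hi4 : i - 1 ≤ N := by linarith
            obtain ⟨hX1, hW1, hr1⟩ := hX (i - 1) hi5 hi4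
            rw [← hr] at hr1
            have hMi := hMv (i - 1) hi5 (by linarith)
            rw [sub_add_cancel] at hMi
            have hst := (h2 ι P κ hLS a r ha har (X (i - 1)) (W (i - 1)) (X i) (W i) hW1 hr1 hri
              (by rw [← hh]; exact hMi) (α + s) e2 x'' w'' hx'' hα2 (by linarith)).2 hI2
            obtain ⟨e3, he3, hI3⟩ := hst
            rw [← hh] at hI3
            have hcast : ((i - 1 : ℤ) : ℝ) * h + (α + s + h) = (i : ℝ) * h + (α + s) := by
              push_cast; ring
            have := ih (i - 1) hi5 hi4 (α + s + h) e3 (by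
              rw [abs_le]
              constructor <;> linarith) hI3 (by
              rw [hcast, he3]
              exact hB2)
            rw [hcast, he3] at this
            linarith
  -- the start
  have h0 : -(N : ℤ) ≤ 0 := by simp
  have h0' : (0 : ℤ) ≤ N := by simp
  obtain ⟨hX0, hW0, hr00⟩ := hX 0 h0 h0'
  rw [← hr] at hr00
  unfold mm
  refine le_csInf ⟨_, Ch.stop (X 0) (W 0) hX0⟩ ?_
  intro c hc
  obtain ⟨τ, hτ⟩ := hLS.2.2.1 (X 0) hX0
  have hR : 0 < κ * rh P (X 0) := by
    have : 0 < rh P (X 0) := by linarith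
    positivity
  obtain ⟨f1, f2⟩ := ((h3 ι P).2.2 (X 0) _ τ hτ).2 hX0 hR
  have hI0 : InS P κ (X 0) (W 0) 0 0 (X 0) (W 0) := by
    refine ⟨τ, hτ, ?_, ?_⟩
    · simp only [Complex.ofReal_zero, zero_mul, add_zero]
      exact f1.symm
    · simp only [Complex.ofReal_zero, zero_mul, add_zero]
      exact (f2 _).symm
  have hfin := claim c (X 0) (W 0) hc 0 h0 h0' 0 0 (by rw [abs_zero]; exact hh0.le) hI0 (by
    simp only [Int.cast_zero, zero_mul, add_zero, abs_zero, zero_div, norm_zero, mul_zero]
    linarith)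
  simp only [Int.cast_zero, zero_mul, add_zero, abs_zero, zero_div, norm_zero, mul_zero,
    sub_zero] at hfin
  exact hfin

end Pool.Agent.H27.ERG
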